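import Mathlib
import Pool.Agent.Lib.helper19.TwoUltra

namespace Pool.Agent.Results.MP_ba1c1e_lc.No

open Filter Topology Cardinal Pool.Agent.Lib.helper19.TwoUltra

/-- A (free, proper) filter on `ω`, as a subset of the Cantor space `2^ω`. -/
structure IsFilter (F : Set (ℕ → Bool)) : Prop where
  inter : ∀ x ∈ F, ∀ y ∈ F, (fun n => x n && y n) ∈ F
  up : ∀ x ∈ F, ∀ y : ℕ → Bool, (∀ n, x n = true → y n = true) → y ∈ F
  proper : (fun _ => false) ∉ F
  cofin : ∀ x : ℕ → Bool, {n | x n = false}.Finite → x ∈ F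

/-- The coideal `F⁺`. -/
def Coideal (F : Set (ℕ → Bool)) : Set (ℕ → Bool) :=
  {a | ∀ x ∈ F, ∃ n, a n = true ∧ x n = true}

theorem result : ∃ F : Set (ℕ → Bool), IsFilter F ∧ ¬ IsMeagre F ∧
    IsEmpty (F × Coideal F ≃ₜ Coideal F) := by
  classical
  obtain ⟨A, hA⟩ := exists_indep
  obtain ⟨Γ, hΓ⟩ := closed_enum (((ℕ → Bool) × (ℕ → Bool)) × (ℕ → Bool))
  obtain ⟨U, V, hU, hV, hd⟩ := diag hA fun t i =>
    if h : ∃ w, ((fun n => emb 0 (A i) n || emb 1 (A i) n, fun _ => true), w) ∈ Γ t then (part 0 h.choose, part 1 h.choose)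
    else (∅, ∅)
  let F : Set (ℕ → Bool) := {x | part 0 x ∈ U ∧ part 1 x ∈ V}
  have hc : ∀ (r : ℕ) (a : ℕ → Bool), part r (fun n => !a n) = (part r a)ᶜ := by
    intro r a; ext n; simp [part]
  have hco : ∀ a, a ∈ Coideal F ↔ part 0 a ∈ U ∨ part 1 a ∈ V := by
    intro a
    constructor
    · intro h
      by_contra hn
      rw [not_or] at hn
      obtain ⟨n, h1, h2⟩ := h (fun n => !a n) ⟨by rw [hc]; exact Ultrafilter.compl_mem_iff_notMem.2 hn.1,
        by rw [hc]; exact Ultrafilter.compl_mem_iff_notMem.2 hn.2⟩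
      simp [h1] at h2
    · rintro (h | h) x hx
      · obtain ⟨n, h1, h2⟩ := Ultrafilter.nonempty_of_mem (inter_mem h hx.1)
        exact ⟨_, h1, h2⟩
      · obtain ⟨n, h1, h2⟩ := Ultrafilter.nonempty_of_mem (inter_mem h hx.2)
        exact ⟨_, h1, h2⟩
  have hfin : ∀ (r : ℕ) (x : ℕ → Bool), {n | x n = false}.Finite → part r x ∈ cofinite := by
    intro r x hx
    refine (hx.preimage (f := fun n => 2 * n + r) fun a _ b _ h => by
      simp only at h; omega).subset fun n hn => ?_
    simpa [part] using hn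
  refine ⟨F, ⟨fun x hx y hy => ⟨?_, ?_⟩, fun x hx y h => ⟨mem_of_superset hx.1 fun n hn => h _ hn,
    mem_of_superset hx.2 fun n hn => h _ hn⟩, fun h => ?_,
    fun x hx => ⟨hU (hfin 0 x hx), hV (hfin 1 x hx)⟩⟩, fun hm => ?_, ⟨fun h' => ?_⟩⟩
  · exact mem_of_superset (inter_mem hx.1 hy.1) fun n hn => Bool.and_eq_true_iff.2 hn
  · exact mem_of_superset (inter_mem hx.2 hy.2) fun n hn => Bool.and_eq_true_iff.2 hn
  · obtain ⟨n, hn⟩ := Ultrafilter.nonempty_of_mem h.1
    simp [part] at hn
  · let φ : Bool × Bool → (ℕ → Bool) → (ℕ → Bool) := fun m x n =>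
      xor (x n) (if n % 2 = 0 then m.1 else m.2)
    have hφ : ∀ m, Continuous (φ m) := fun m => continuous_pi fun n =>
      (continuous_of_discreteTopology (f := fun b : Bool =>
        xor b (if n % 2 = 0 then m.1 else m.2))).comp (continuous_apply n)
    have hinv : ∀ m, Function.Involutive (φ m) := fun m x => by ext n; simp [φ]
    have hme : ∀ m, IsMeagre (φ m ⁻¹' F) := fun m => hm.preimage_of_isOpenMap (hφ m)
      (Homeomorph.mk (hinv m).toPerm (hφ m) (hφ m)).isOpenMap
    refine not_isMeagre_of_isOpen isOpen_univ Set.univ_nonempty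
      ((isMeagre_iUnion hme).mono fun x _ => Set.mem_iUnion.2
        ⟨(decide (part 0 x ∉ U), decide (part 1 x ∉ V)), And.intro ?_ ?_⟩)
    · by_cases h : part 0 x ∈ U
      · rw [decide_eq_false (not_not.2 h)]
        exact mem_of_superset h fun n hn => by simpa [part, φ] using hn
      · rw [decide_eq_true h]
        exact mem_of_superset (Ultrafilter.compl_mem_iff_notMem.2 h) fun n hn => by
          simpa [part, φ] using hn
    · have e : ∀ n, (2 * n + 1) % 2 = 1 := fun n => by omega
      by_cases h : part 1 x ∈ V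
      · rw [decide_eq_false (not_not.2 h)]
        exact mem_of_superset h fun n hn => by simpa [part, φ, e] using hn
      · rw [decide_eq_true h]
        exact mem_of_superset (Ultrafilter.compl_mem_iff_notMem.2 h) fun n hn => by
          simpa [part, φ, e] using hn
  · let h := h'.symm
    let G : Coideal F → ((ℕ → Bool) × (ℕ → Bool)) × (ℕ → Bool) := fun y =>
      (((h y).1.1, (h y).2.1), y.1)
    obtain ⟨t, ht⟩ := hΓ (closure (Set.range G)) isClosed_closure
    have k2 : ∀ z w, (z, w) ∈ Γ t → (w ∈ Coideal F ↔ z.1 ∈ F ∧ z.2 ∈ Coideal F) := by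
      intro z w hzw
      rw [ht, mem_closure_iff_seq_limit] at hzw
      obtain ⟨x, hx, hl⟩ := hzw
      choose y hy using hx
      have l1 : Tendsto (fun n => (h (y n)).1.1) atTop (𝓝 z.1) := by
        have := (continuous_fst.tendsto _).comp ((continuous_fst.tendsto _).comp hl)
        refine this.congr fun n => ?_
        simp [← hy n, G]
      have l2 : Tendsto (fun n => (h (y n)).2.1) atTop (𝓝 z.2) := by
        have := (continuous_snd.tendsto _).comp ((continuous_fst.tendsto _).comp hl)
        refine this.congr fun n => ?_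
        simp [← hy n, G]
      have l3 : Tendsto (fun n => (y n).1) atTop (𝓝 w) := by
        have := (continuous_snd.tendsto _).comp hl
        refine this.congr fun n => ?_
        simp [← hy n, G]
      constructor
      · intro hw
        have a : Tendsto (fun n => h (y n)) atTop (𝓝 (h ⟨w, hw⟩)) :=
          (h.continuous.tendsto _).comp (tendsto_subtype_rng.2 l3)
        have a1 := tendsto_nhds_unique l1
          ((continuous_subtype_val.tendsto _).comp ((continuous_fst.tendsto _).comp a))
        have a2 := tendsto_nhds_unique l2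
          ((continuous_subtype_val.tendsto _).comp ((continuous_snd.tendsto _).comp a))
        exact ⟨a1 ▸ (h ⟨w, hw⟩).1.2, a2 ▸ (h ⟨w, hw⟩).2.2⟩
      · rintro ⟨h1, h2⟩
        have a : Tendsto (fun n => h (y n)) atTop (𝓝 (⟨z.1, h1⟩, ⟨z.2, h2⟩)) :=
          Tendsto.prodMk_nhds (tendsto_subtype_rng.2 l1) (tendsto_subtype_rng.2 l2)
        have a' := (continuous_subtype_val.tendsto _).comp ((h.symm.continuous.tendsto _).comp a)
        have a1 := tendsto_nhds_unique l3 (a'.congr fun n => by simp)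
        exact a1 ▸ (h.symm _).2
    obtain ⟨i, hi⟩ := hd t
    have p0 : part 0 (fun n => emb 0 (A i) n || emb 1 (A i) n) = A i := by ext n; simp [part, emb]
    have p1 : part 1 (fun n => emb 0 (A i) n || emb 1 (A i) n) = A i := by
      ext n
      have : (2 * n + 1) / 2 = n := by omega
      simp [part, emb, this]
    have e0 : (fun n => emb 0 (A i) n || emb 1 (A i) n) ∈ F ↔ A i ∈ U ∧ A i ∈ V := by
      show part 0 _ ∈ U ∧ part 1 _ ∈ V ↔ _
      rw [p0, p1]
    have e1 : (fun _ => true) ∈ Coideal F := by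
      rw [hco]; left
      exact mem_of_superset univ_mem fun n _ => rfl
    apply hi
    split_ifs with hw
    · have := k2 _ _ hw.choose_spec
      rw [hco, e0] at this
      simpa only [e1, and_true] using this
    · refine iff_of_false (by simp) fun hUV => hw ⟨(h.symm (⟨_, e0.2 hUV⟩, ⟨_, e1⟩)).1, ?_⟩
      rw [ht]
      exact subset_closure ⟨h.symm (⟨_, e0.2 hUV⟩, ⟨_, e1⟩), by simp [G]⟩

end Pool.Agent.Results.MP_ba1c1e_lc.No
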